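import Pool.Agent.MQG.StmtsC
import Pool.Agent.MQG.Legs3

set_option autoImplicit false

/-!
# The properties of `λ~`
-/

namespace Pool.Agent.MQG.H24

open scoped InnerProductSpace InnerProduct Topology ComplexConjugate
open Complex Filter Pool.Agent.MQG

variable {κ ι : Type} {V : ℝ → Op ι} {s : ℝ} {a b a' b' : Op ι}

theorem shp_unique (hV : IsGroup V) (h : Shp V s a b) (h' : Shp V s a b') : b = b' := by
  refine (total_traj hV 0).ext_op (total_traj hV 0) ?_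
  rintro _ ⟨f, hf, rfl⟩ _ ⟨g, hg, rfl⟩
  rw [h f g hf hg, h' f g hf hg]

theorem shp_one (hV : IsGroup V) : Shp V s 1 1 := by
  intro f g hf hg
  have h := hf.inner_shift hV hg 0 (I * s) (-(I * s))
  have h2 : -(I * (s : ℂ)) - conj (I * (s : ℂ)) = 0 := by
    rw [map_mul, conj_I, conj_ofReal]
    ring
  rw [zero_add, h2] at h
  exact h.symm

theorem lts (ltx : LtxStmt) (tun : TunStmt) (shm : ShmStmt) : LtsStmt := by
  intro ι M κ U hU
  have hV := M.V_group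
  have h4 : (0 : ℝ) < 1 / 4 := by norm_num
  have k0 : ∀ μ, IsTau M.V (1 / 4) (lam U μ) (lamt M.V U μ) := by
    intro μ
    obtain ⟨b, hb, _⟩ := ltx ι M κ U hU μ
    exact Classical.epsilon_spec (p := fun b => IsTau M.V (1 / 4) (lam U μ) b) ⟨b, hb⟩
  have k1 : ∀ μ, Shp M.V (1 / 4) (lam U μ) (lamt M.V U μ) := fun μ =>
    tun ι M.V hV (1 / 4) _ _ h4 (k0 μ)
  have k2 : ∀ μ b, Shp M.V (1 / 4) (lam U μ) b → b = lamt M.V U μ := fun μ b h =>
    shp_unique hV h (k1 μ)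
  have k3 : ∀ μ b, IsTau M.V (1 / 4) (lam U μ) b → b = lamt M.V U μ := fun μ b h =>
    k2 μ b (tun ι M.V hV (1 / 4) _ _ h4 h)
  refine ⟨fun μ b => ⟨k3 μ b, fun h => h ▸ k0 μ⟩, fun μ b => ⟨k2 μ b, fun h => h ▸ k1 μ⟩,
    fun μ => ?_, fun μ ν => ?_, fun c μ => ?_, fun μ ν ρ h => ?_, fun e he => ?_⟩
  · obtain ⟨b, hb, hn⟩ := ltx ι M κ U hU μ
    rw [← k3 μ b hb]
    exact hn
  · symm
    refine k2 _ _ fun f g hf hg => ?_
    have h1 := k1 μ f g hf hg
    have h2 := k1 ν f g hf hg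
    rw [inner_lam] at h1 h2 ⊢
    rw [add_apply, add_apply, inner_add_right, h1, h2]
  · symm
    refine k2 _ _ fun f g hf hg => ?_
    have h1 := k1 μ f g hf hg
    rw [inner_lam] at h1 ⊢
    rw [smul_apply, smul_apply, inner_smul_right, h1, smul_eq_mul]
  · symm
    refine k2 _ _ ?_
    rw [h]
    exact shm ι M.V hV _ _ _ _ _ (k1 μ) (k1 ν)
  · symm
    refine k2 _ _ ?_
    rw [he]
    exact shp_one hV

end Pool.Agent.MQG.H24
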