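import Pool.Agent.MQG.StmtsB

set_option autoImplicit false

/-!
# The product of two adapted unitaries is adapted
-/

namespace Pool.Agent.MQG.H24

open scoped InnerProductSpace InnerProduct Topology ComplexConjugate
open Complex Filter Pool.Agent.MQG

variable {α β β' γ δ κ κ' ι : Type}

/-- two identifications which differ only in the second factor give the same ampliation -/
theorem leg_congr (e : γ ≃ α × β) (e' : γ ≃ α × β') (T : Op α) (h1 : ∀ c, (e c).1 = (e' c).1)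
    (h2 : ∀ c a, e.symm (a, (e c).2) = e'.symm (a, (e' c).2)) : leg e T = leg e' T := by
  refine ContinuousLinearMap.ext fun ζ => ?_
  ext c
  rw [leg_apply, leg_apply]
  have h3 : fib e ζ (e c).2 = fib e' ζ (e' c).2 := by
    ext a
    rw [fib_apply, fib_apply, h2]
  rw [h3, h1]

/-- ampliating twice is one ampliation, with any identification of the second factor -/
theorem leg_leg' {β'' : Type} (e : δ ≃ γ × β') (f : γ ≃ α × β) (g : δ ≃ α × β'') (T : Op α)
    (h1 : ∀ c, (f (e c).1).1 = (g c).1)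
    (h2 : ∀ c a, e.symm (f.symm (a, (f (e c).1).2), (e c).2) = g.symm (a, (g c).2)) :
    leg e (leg f T) = leg g T := by
  refine ContinuousLinearMap.ext fun ζ => ?_
  ext c
  rw [leg_apply, leg_apply, leg_apply]
  have h3 : fib f (fib e ζ (e c).2) (f (e c).1).2 = fib g ζ (g c).2 := by
    ext a
    rw [fib_apply, fib_apply, fib_apply, h2]
  rw [h3, h1]

/-- `((k, k'), a, b) ↦ ((k, a), (k', b))` -/
def A13 : (κ × κ') × ι × ι ≃ (κ × ι) × (κ' × ι) where
  toFun p := ((p.1.1, p.2.1), (p.1.2, p.2.2))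
  invFun p := ((p.1.1, p.2.1), (p.1.2, p.2.2))
  left_inv _ := rfl
  right_inv _ := rfl

/-- `((k, k'), a, b) ↦ ((k, b), (k', a))` -/
def A14 : (κ × κ') × ι × ι ≃ (κ × ι) × (κ' × ι) where
  toFun p := ((p.1.1, p.2.2), (p.1.2, p.2.1))
  invFun p := ((p.1.1, p.2.1), (p.2.2, p.1.2))
  left_inv _ := rfl
  right_inv _ := rfl

/-- `((k, k'), a, b) ↦ ((k', a), (k, b))` -/
def A23 : (κ × κ') × ι × ι ≃ (κ' × ι) × (κ × ι) where
  toFun p := ((p.1.2, p.2.1), (p.1.1, p.2.2))
  invFun p := ((p.2.1, p.1.1), (p.1.2, p.2.2))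
  left_inv _ := rfl
  right_inv _ := rfl

/-- `((k, k'), a, b) ↦ ((k', b), (k, a))` -/
def A24 : (κ × κ') × ι × ι ≃ (κ' × ι) × (κ × ι) where
  toFun p := ((p.1.2, p.2.2), (p.1.1, p.2.1))
  invFun p := ((p.2.1, p.1.1), (p.2.2, p.1.2))
  left_inv _ := rfl
  right_inv _ := rfl

/-- `((k, k'), a, b) ↦ ((a, b), (k, k'))` -/
def A34 : (κ × κ') × ι × ι ≃ (ι × ι) × (κ × κ') where
  toFun p := (p.2, p.1)
  invFun p := (p.2, p.1)
  left_inv _ := rfl
  right_inv _ := rfl

/-- `((k, k'), a, b) ↦ ((k, a, b), k')` -/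
def B1 : (κ × κ') × ι × ι ≃ (κ × ι × ι) × κ' where
  toFun p := ((p.1.1, p.2), p.1.2)
  invFun p := ((p.1.1, p.2), p.1.2)
  left_inv _ := rfl
  right_inv _ := rfl

/-- `((k, k'), a, b) ↦ ((k', a, b), k)` -/
def B2 : (κ × κ') × ι × ι ≃ (κ' × ι × ι) × κ where
  toFun p := ((p.1.2, p.2), p.1.1)
  invFun p := ((p.2, p.1.1), p.1.2)
  left_inv _ := rfl
  right_inv _ := rfl

theorem pra : PraStmt := by
  intro ι κ κ' W U U' hU hU'
  have k1 : (l12 (pr U U') : Op ((κ × κ') × ι × ι)) = leg A13 U * leg A23 U' := by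
    rw [pr, l12, leg_mul]
    exact congrArg₂ (fun S T => S * T) (leg_leg' _ _ _ _ (fun _ => rfl) (fun _ _ => rfl))
      (leg_leg' _ _ _ _ (fun _ => rfl) (fun _ _ => rfl))
  have k2 : (l13 (pr U U') : Op ((κ × κ') × ι × ι)) = leg A14 U * leg A24 U' := by
    rw [pr, l13, leg_mul]
    exact congrArg₂ (fun S T => S * T) (leg_leg' _ _ _ _ (fun _ => rfl) (fun _ _ => rfl))
      (leg_leg' _ _ _ _ (fun _ => rfl) (fun _ _ => rfl))
  have k3 : (l23 W : Op ((κ × κ') × ι × ι)) = leg A34 W := by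
    rw [l23]
    exact leg_congr _ _ _ (fun _ => rfl) (fun _ _ => rfl)
  have k4 : (leg A14 U * leg A23 U' : Op ((κ × κ') × ι × ι)) = leg A23 U' * leg A14 U := by
    have h := leg_comm (A14 : (κ × κ') × ι × ι ≃ (κ × ι) × (κ' × ι)) U' U
    have h2 : (leg ((A14 : (κ × κ') × ι × ι ≃ (κ × ι) × (κ' × ι)).trans (Equiv.prodComm _ _)) U') =
        leg A23 U' := leg_congr _ _ _ (fun _ => rfl) (fun _ _ => rfl)
    rw [h2] at h
    exact h.symm
  have k5 : (leg A13 U * leg A14 U * leg A34 W : Op ((κ × κ') × ι × ι)) =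
      leg A34 W * leg A13 U := by
    have h := congrArg (fun T => (leg B1 T : Op ((κ × κ') × ι × ι))) hU.eq
    simp only [leg_mul] at h
    have h1 : (leg B1 (l12 U) : Op ((κ × κ') × ι × ι)) = leg A13 U :=
      leg_leg' _ _ _ _ (fun _ => rfl) (fun _ _ => rfl)
    have h2 : (leg B1 (l13 U) : Op ((κ × κ') × ι × ι)) = leg A14 U :=
      leg_leg' _ _ _ _ (fun _ => rfl) (fun _ _ => rfl)
    have h3 : (leg B1 (l23 W) : Op ((κ × κ') × ι × ι)) = leg A34 W :=
      leg_leg' _ _ _ _ (fun _ => rfl) (fun _ _ => rfl)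
    rw [h1, h2, h3] at h
    exact h
  have k6 : (leg A23 U' * leg A24 U' * leg A34 W : Op ((κ × κ') × ι × ι)) =
      leg A34 W * leg A23 U' := by
    have h := congrArg (fun T => (leg B2 T : Op ((κ × κ') × ι × ι))) hU'.eq
    simp only [leg_mul] at h
    have h1 : (leg B2 (l12 U') : Op ((κ × κ') × ι × ι)) = leg A23 U' :=
      leg_leg' _ _ _ _ (fun _ => rfl) (fun _ _ => rfl)
    have h2 : (leg B2 (l13 U') : Op ((κ × κ') × ι × ι)) = leg A24 U' :=
      leg_leg' _ _ _ _ (fun _ => rfl) (fun _ _ => rfl)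
    have h3 : (leg B2 (l23 W) : Op ((κ × κ') × ι × ι)) = leg A34 W :=
      leg_leg' _ _ _ _ (fun _ => rfl) (fun _ _ => rfl)
    rw [h1, h2, h3] at h
    exact h
  refine ⟨?_, ?_⟩
  · rw [pr]
    exact mul_mem (leg_unitary _ hU.unit) (leg_unitary _ hU'.unit)
  · rw [k1, k2, k3]
    calc leg A13 U * leg A23 U' * (leg A14 U * leg A24 U') * leg A34 W
        = leg A13 U * (leg A23 U' * leg A14 U) * leg A24 U' * leg A34 W := by
          simp only [mul_assoc]
      _ = leg A13 U * (leg A14 U * leg A23 U') * leg A24 U' * leg A34 W := by rw [k4]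
      _ = leg A13 U * leg A14 U * (leg A23 U' * leg A24 U' * leg A34 W) := by
          simp only [mul_assoc]
      _ = leg A13 U * leg A14 U * (leg A34 W * leg A23 U') := by rw [k6]
      _ = (leg A13 U * leg A14 U * leg A34 W) * leg A23 U' := by simp only [mul_assoc]
      _ = (leg A34 W * leg A13 U) * leg A23 U' := by rw [k5]
      _ = leg A34 W * (leg A13 U * leg A23 U') := by simp only [mul_assoc]

end Pool.Agent.MQG.H24
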